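import Pool.Agent.H295R2.SI.Defs

/-!
Task T02 (helper793): the self-convolution `RS s` of the window `cos (s x)`.
-/

set_option autoImplicit false

open Finset MeasureTheory

namespace H793SI

open H295SI

/-- numerator of `RS` -/
noncomputable def rsN (s a : ℝ) : ℝ :=
  (1 - a) * Real.cos (s * a) + Real.sin (s * (1 - a)) / s

theorem sqrt2_lt : Real.sqrt 2 < Real.pi / 2 := by
  have h1 : Real.sqrt 2 < 1.5 := by
    rw [Real.sqrt_lt' (by norm_num)]
    norm_num
  have := Real.pi_gt_three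
  linarith

theorem rs_eq (s α : ℝ) : RS s α = rsN s (min |α| 1) * (s ^ 2 / (8 * Real.sin (s / 2) ^ 2)) := by
  unfold RS rsN
  split_ifs with h
  · rw [min_eq_left h]
  · rw [min_eq_right (not_le.1 h).le]
    simp

theorem rsN_nonneg {s a : ℝ} (hs : 0 < s) (hs2 : s ≤ Real.sqrt 2) (h0 : 0 ≤ a) (h1 : a ≤ 1) :
    0 ≤ rsN s a := by
  have hsp := sqrt2_lt
  have hp := Real.pi_pos
  unfold rsN
  have h2 : s * a ≤ s := by nlinarith
  have h3 : s * (1 - a) ≤ s := by nlinarith
  have h2' : 0 ≤ s * a := by positivity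
  have h3' : 0 ≤ s * (1 - a) := mul_nonneg hs.le (by linarith)
  have h4 : 0 ≤ Real.cos (s * a) :=
    Real.cos_nonneg_of_neg_pi_div_two_le_of_le (by linarith) (by linarith)
  have h5 : 0 ≤ Real.sin (s * (1 - a)) :=
    Real.sin_nonneg_of_nonneg_of_le_pi h3' (by linarith)
  have h6 : 0 ≤ (1 - a) := by linarith
  positivity

theorem rsN_anti {s a b : ℝ} (hs : 0 < s) (hs2 : s ≤ Real.sqrt 2) (h0 : 0 ≤ a) (hab : a ≤ b)
    (h1 : b ≤ 1) : rsN s b ≤ rsN s a := by
  have hsp := sqrt2_lt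
  have hp := Real.pi_pos
  unfold rsN
  have h2 : s * a ≤ s * b := by nlinarith
  have h2b : s * b ≤ s := by nlinarith
  have h2a : 0 ≤ s * a := by positivity
  have h3 : s * (1 - b) ≤ s * (1 - a) := by nlinarith
  have h3b : 0 ≤ s * (1 - b) := mul_nonneg hs.le (by linarith)
  have h3a : s * (1 - a) ≤ s := by nlinarith
  have h4 : Real.cos (s * b) ≤ Real.cos (s * a) :=
    Real.cos_le_cos_of_nonneg_of_le_pi h2a (by linarith) h2
  have h5 : 0 ≤ Real.cos (s * b) :=
    Real.cos_nonneg_of_neg_pi_div_two_le_of_le (by linarith) (by linarith)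
  have h6 : Real.sin (s * (1 - b)) ≤ Real.sin (s * (1 - a)) :=
    Real.sin_le_sin_of_le_of_le_pi_div_two (by linarith) (by linarith) h3
  have h7 : (1 - b) * Real.cos (s * b) ≤ (1 - a) * Real.cos (s * a) :=
    mul_le_mul (by linarith) h4 h5 (by linarith)
  have h8 := div_le_div_of_nonneg_right h6 hs.le
  linarith

theorem rsN_lip {s a b : ℝ} (hs : 0 < s) (hs2 : s ≤ Real.sqrt 2) (h0 : 0 ≤ a) (h1 : a ≤ 1) :
    |rsN s a - rsN s b| ≤ 4 * |a - b| := by
  have hs3 : Real.sqrt 2 ≤ 2 := by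
    rw [Real.sqrt_le_left (by norm_num)]; norm_num
  have hs4 : s ≤ 2 := hs2.trans hs3
  have e1 : rsN s a - rsN s b = (1 - a) * (Real.cos (s * a) - Real.cos (s * b))
      + (b - a) * Real.cos (s * b)
      + (Real.sin (s * (1 - a)) - Real.sin (s * (1 - b))) / s := by
    unfold rsN; ring
  have c1 : |Real.cos (s * a) - Real.cos (s * b)| ≤ 2 * |a - b| := by
    have h := Real.abs_cos_sub_cos_le (s * a) (s * b)
    rw [← mul_sub, abs_mul, abs_of_pos hs] at h
    nlinarith [abs_nonneg (a - b)]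
  have c2 : |Real.sin (s * (1 - a)) - Real.sin (s * (1 - b))| ≤ s * |a - b| := by
    have h := Real.abs_sin_sub_sin_le (s * (1 - a)) (s * (1 - b))
    rw [← mul_sub, abs_mul, abs_of_pos hs] at h
    have : |1 - a - (1 - b)| = |a - b| := by
      rw [show 1 - a - (1 - b) = -(a - b) by ring, abs_neg]
    rwa [this] at h
  rw [e1]
  have t1 := abs_add_le ((1 - a) * (Real.cos (s * a) - Real.cos (s * b))
      + (b - a) * Real.cos (s * b))
      ((Real.sin (s * (1 - a)) - Real.sin (s * (1 - b))) / s)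
  have t2 := abs_add_le ((1 - a) * (Real.cos (s * a) - Real.cos (s * b)))
    ((b - a) * Real.cos (s * b))
  have u1 : |(1 - a) * (Real.cos (s * a) - Real.cos (s * b))| ≤ 2 * |a - b| := by
    rw [abs_mul, abs_of_nonneg (by linarith : (0 : ℝ) ≤ 1 - a)]
    nlinarith [abs_nonneg (Real.cos (s * a) - Real.cos (s * b))]
  have u2 : |(b - a) * Real.cos (s * b)| ≤ |a - b| := by
    rw [abs_mul, abs_sub_comm]
    have := Real.abs_cos_le_one (s * b)
    nlinarith [abs_nonneg (a - b)]
  have u3 : |(Real.sin (s * (1 - a)) - Real.sin (s * (1 - b))) / s| ≤ |a - b| := by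
    rw [abs_div, abs_of_pos hs, div_le_iff₀ hs]
    linarith
  linarith

theorem convS : H295SI.ConvS := by
  intro s hs hs2
  have hD : 0 ≤ s ^ 2 / (8 * Real.sin (s / 2) ^ 2) := by positivity
  refine ⟨?_, ?_, ?_, ?_, ?_⟩
  · intro α
    rw [rs_eq]
    exact mul_nonneg (rsN_nonneg hs hs2 (le_min (abs_nonneg _) zero_le_one) (min_le_right _ _)) hD
  · intro x hx y hy hxy
    rw [rs_eq, rs_eq]
    have hx : (0 : ℝ) ≤ x := hx
    have hy : (0 : ℝ) ≤ y := hy
    apply mul_le_mul_of_nonneg_right _ hD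
    apply rsN_anti hs hs2 (le_min (abs_nonneg _) zero_le_one) _ (min_le_right _ _)
    rw [abs_of_nonneg hx, abs_of_nonneg hy]
    exact min_le_min_right 1 hxy
  · set D := s ^ 2 / (8 * Real.sin (s / 2) ^ 2) with hDd
    refine ⟨4 * D + 1, by positivity, fun x y => ?_⟩
    rw [rs_eq, rs_eq, ← hDd, ← sub_mul, abs_mul, abs_of_nonneg hD]
    have h1 := rsN_lip hs hs2 (a := min |x| 1) (b := min |y| 1)
      (le_min (abs_nonneg x) zero_le_one) (min_le_right _ _)
    have h2 : |min |x| 1 - min |y| 1| ≤ |x - y| :=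
      (abs_min_sub_min_le_max _ _ _ _).trans (by simpa using abs_abs_sub_abs_le x y)
    calc |rsN s (min |x| 1) - rsN s (min |y| 1)| * D ≤ (4 * |x - y|) * D := by
          apply mul_le_mul_of_nonneg_right _ hD
          linarith
      _ = (4 * D) * |x - y| := by ring
      _ ≤ (4 * D + 1) * |x - y| := by
          have := abs_nonneg (x - y)
          nlinarith
  · intro α
    rw [rs_eq, rs_eq, abs_neg]
  · intro α hα
    unfold RS
    rw [if_neg]
    rw [abs_of_pos (by linarith)]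
    linarith

end H793SI
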